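import Pool.Agent.Results.MP_47914d_nt.GrowingDegreeIsogenies
import Pool.Agent.N207.HY.Main

/-!
# The hyperbolic analytic subspace conjecture for products of modular curves

Let `S = Y(1)^n`, let `o = (o_1, …, o_n)` be a special point of `ℍ^n`, and let `z = (z_1, …, z_n)`,
`z_i = (τ_i - o_i) / (τ_i - conj o_i)`, be the coordinates of a point `τ` of `ℍ^n` in the Harish-Chandra realization. In
these coordinates the geometric structure on `T_oX = ℂ^n` is `Qbar^n`, and the arithmetic structure consists of the `u`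
for which all `c_i u_i` are algebraic, `c_i = θ_i² / π` with the period `θ_i` of the elliptic curve `[o_i]` (up to
algebraic factors). If `[o_i]` and `[o_k]` are isogenous, `c_i / c_k` is algebraic; nothing else is used about the
numbers `c_i`.

We consider the points `τ` whose coordinates are isogenous to points `v_s` with integral invariants `j(v_s) = m_s`
(`n` coordinates, `k` isogeny classes; there is no bound for the degrees of the isogenies). Let `T` be the tangent space
of the Shimura subvariety through `[o]` and `[z]` given by all the isogenies between the pairs `(o_i, τ_i)`, and by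
`x_i = o_i` if `τ_i = o_i`. It is rational for both structures and contains `z`. We prove: in every window
`N ≤ ± m ≤ N + H` with `(H + 2)^((D + 2)^C) ≤ N` there are at most `n + 2` integers (they depend on `o`, `c`) such that
for all points `z` with distinct invariants `m_1, …, m_k` in the window different from these integers, **every**
subspace `V ∋ z` which is rational for the arithmetic structure over some number field of degree at most `D` contains
`T`: the answer to Q1 is yes with `V' = T`, and `T` is the tangent space of a Shimura subvariety as in Q2. There is no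
bound for the heights of the coefficients of `V`; the degree `D` may grow with `N`.

The proof uses the theorem of the starting file `MP_47914d_nt.GrowingDegreeIsogenies` on the algebraic independence of
`v_1, …, v_k` over the field generated by `c_1, …, c_n`, and the decomposition of a linear relation between the
functions `(γ_i x - o_i) / (γ_i x - conj o_i)`, `γ_i ∈ GL₂⁺(ℚ)`, according to their poles `conj (γ_i⁻¹ o_i)`.
-/

set_option autoImplicit false

open scoped ComplexConjugate

namespace Pool.Agent.Results.MP_1e27bd_ag.ModularProducts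

open Pool.Agent.Results.MP_47914d_nt.GrowingDegreeIsogenies (J)

/-- `o` is an imaginary quadratic point of the upper half-plane. -/
def Special (o : ℂ) : Prop := 0 < o.im ∧ ∃ a b c : ℤ, a ≠ 0 ∧ (a : ℂ) * o ^ 2 + b * o + c = 0

/-- `τ` is the image of `v` under an element of `GL_2^+(ℚ)`. -/
def Isogenous (v τ : ℂ) : Prop :=
  ∃ a b c d : ℚ, 0 < a * d - b * c ∧ τ = ((a : ℂ) * v + b) / (c * v + d)

/-- `(o', τ')` is the image of `(o, τ)` under an element of `GL_2^+(ℚ)`. -/
def PairIsogenous (o τ o' τ' : ℂ) : Prop :=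
  ∃ a b c d : ℚ, 0 < a * d - b * c ∧ o' = ((a : ℂ) * o + b) / (c * o + d) ∧ τ' = ((a : ℂ) * τ + b) / (c * τ + d)

/-- The coordinates of `τ` in the Harish-Chandra realization at the point `o`. -/
noncomputable def point {n : ℕ} (o τ : Fin n → ℂ) : Fin n → ℂ := fun i => (τ i - o i) / (τ i - conj (o i))

/-- The quotients `c i / c k` are algebraic if `o i` and `o k` are isogenous. -/
def Compatible {n : ℕ} (o c : Fin n → ℂ) : Prop := ∀ i k, Isogenous (o i) (o k) → IsAlgebraic ℚ (c i / c k)

/-- The algebraic numbers. -/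
def Qbar : Set ℂ := {x | IsAlgebraic ℚ x}

/-- `V` is rational over the field `K` for the structure of the vectors `u` with all `c i * u i` in `K`: it is given by
linear equations with coefficients in `K` between the numbers `c i * u i`. -/
def Rational {n : ℕ} (K : Set ℂ) (c : Fin n → ℂ) (V : Submodule ℂ (Fin n → ℂ)) : Prop :=
  ∃ F : Set (Fin n → ℂ), (∀ a ∈ F, ∀ i, a i ∈ K) ∧ ∀ u, u ∈ V ↔ ∀ a ∈ F, ∑ i, a i * (c i * u i) = 0

/-- The tangent space at `o` of the Shimura subvariety given by `x_i = o_i` if `τ_i = o_i`, and `x_k = γ x_i` if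
`γ ∈ GL_2^+(ℚ)` maps `o_i` to `o_k` and `τ_i` to `τ_k`. -/
def Tangent {n : ℕ} (o τ : Fin n → ℂ) : Submodule ℂ (Fin n → ℂ) where
  carrier := {u | (∀ i, τ i = o i → u i = 0) ∧
    ∀ i k, PairIsogenous (o i) (τ i) (o k) (τ k) → u k * point o τ i = u i * point o τ k}
  add_mem' := by
    rintro u w ⟨h1, h2⟩ ⟨h3, h4⟩
    refine ⟨fun i hi => ?_, fun i k hik => ?_⟩
    · rw [Pi.add_apply, h1 i hi, h3 i hi, add_zero]
    · rw [Pi.add_apply, Pi.add_apply, add_mul, add_mul, h2 i k hik, h4 i k hik]
  zero_mem' := ⟨fun _ _ => rfl, fun i k _ => by simp⟩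
  smul_mem' := by
    rintro r u ⟨h1, h2⟩
    refine ⟨fun i hi => ?_, fun i k hik => ?_⟩
    · rw [Pi.smul_apply, h1 i hi, smul_zero]
    · rw [Pi.smul_apply, Pi.smul_apply, smul_eq_mul, smul_eq_mul, mul_assoc, mul_assoc, h2 i k hik]

lemma special_alg {o : ℂ} (h : Special o) : IsAlgebraic ℚ o :=
  isAlgebraic_iff_isIntegral.2 (Pool.Agent.N207.HY.special_integral h)

lemma conj_alg {o : ℂ} (h : Special o) : IsAlgebraic ℚ (conj o) := by
  obtain ⟨ho, a, b, c, ha, h0⟩ := h
  have ha' : (a : ℂ) ≠ 0 := by exact_mod_cast ha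
  obtain ⟨p, hp, -, h1⟩ := Pool.Agent.N207.HY.special_poly ⟨ho, a, b, c, ha, h0⟩
  refine ⟨p, hp, ?_⟩
  have h2 := congrArg (starRingEnd ℂ) h1
  rw [map_zero] at h2
  rw [← h2, Polynomial.aeval_def, Polynomial.aeval_def, Polynomial.hom_eval₂]
  congr 1
  exact (RingHom.ext_rat _ _)

lemma rat_alg (r : ℚ) : IsAlgebraic ℚ (r : ℂ) := by
  simpa using isAlgebraic_algebraMap (R := ℚ) (A := ℂ) r

lemma alg_add {x y : ℂ} (hx : IsAlgebraic ℚ x) (hy : IsAlgebraic ℚ y) : IsAlgebraic ℚ (x + y) := hx.add hy
lemma alg_mul {x y : ℂ} (hx : IsAlgebraic ℚ x) (hy : IsAlgebraic ℚ y) : IsAlgebraic ℚ (x * y) := hx.mul hy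

lemma point_ne {n : ℕ} {o τ : Fin n → ℂ} (ho : ∀ i, 0 < (o i).im) (hτ : ∀ i, 0 < (τ i).im) (i : Fin n)
    (h : point o τ i = 0) : τ i = o i := by
  unfold point at h
  rcases div_eq_zero_iff.1 h with h1 | h1
  · exact sub_eq_zero.1 h1
  · exfalso
    have h2 := congrArg Complex.im h1
    simp only [Complex.sub_im, Complex.conj_im, Complex.zero_im] at h2
    have := ho i
    have := hτ i
    linarith

lemma rational_tangent {n : ℕ} {o τ c : Fin n → ℂ} (ho : ∀ i, Special (o i)) (hτ : ∀ i, 0 < (τ i).im)
    (hc : ∀ i, c i ≠ 0) (hcomp : Compatible o c) : Rational Qbar c (Tangent o τ) := by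
  classical
  refine ⟨{a | (∃ i, τ i = o i ∧ a = fun l => if l = i then 1 else 0) ∨
    ∃ i k, ∃ r s t w : ℚ, 0 < r * w - s * t ∧ o k = ((r : ℂ) * o i + s) / (t * o i + w) ∧
      τ k = ((r : ℂ) * τ i + s) / (t * τ i + w) ∧
      a = fun l => (if l = k then 1 else 0) -
        (if l = i then ((t * conj (o i) + w) / (t * o i + w)) * (c k / c i) else 0)}, ?_, fun u => ?_⟩
  · rintro a (⟨i, -, rfl⟩ | ⟨i, k, r, s, t, w, hdet, h1, -, rfl⟩) l
    · show IsAlgebraic ℚ (if l = i then (1 : ℂ) else 0)
      split_ifs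
      · exact isAlgebraic_one
      · exact isAlgebraic_zero
    · have h2 : IsAlgebraic ℚ (c k / c i) := by
        have h3 := (hcomp i k ⟨r, s, t, w, hdet, h1⟩).inv
        rwa [inv_div] at h3
      have h4 : IsAlgebraic ℚ ((t * conj (o i) + w) / (t * o i + w) : ℂ) := by
        rw [div_eq_mul_inv]
        exact alg_mul (alg_add (alg_mul (rat_alg t) (conj_alg (ho i))) (rat_alg w))
          (alg_add (alg_mul (rat_alg t) (special_alg (ho i))) (rat_alg w)).inv
      show IsAlgebraic ℚ ((if l = k then (1 : ℂ) else 0) -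
        (if l = i then ((t * conj (o i) + w) / (t * o i + w) : ℂ) * (c k / c i) else 0))
      refine IsAlgebraic.sub ?_ ?_
      · split_ifs
        · exact isAlgebraic_one
        · exact isAlgebraic_zero
      · split_ifs
        · exact alg_mul h4 h2
        · exact isAlgebraic_zero
  · have hs1 : ∀ i, ∑ l, (if l = i then (1 : ℂ) else 0) * (c l * u l) = c i * u i := by
      intro i
      simp
    have hs2 : ∀ i k (ρ : ℂ), ∑ l, ((if l = k then (1 : ℂ) else 0) - (if l = i then ρ * (c k / c i) else 0)) * (c l * u l) =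
        c k * (u k - ρ * u i) := by
      intro i k ρ
      simp only [sub_mul, Finset.sum_sub_distrib, ite_mul, one_mul, zero_mul, Finset.sum_ite_eq', Finset.mem_univ, if_true]
      have := hc i
      field_simp
    have hq : ∀ i k, ∀ r s t w : ℚ, 0 < r * w - s * t → o k = ((r : ℂ) * o i + s) / (t * o i + w) →
        τ k = ((r : ℂ) * τ i + s) / (t * τ i + w) →
        point o τ k = ((t * conj (o i) + w) / (t * o i + w)) * point o τ i := by
      intro i k r s t w hdet h1 h2
      unfold point
      rw [h1, h2]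
      exact Pool.Agent.N207.HY.coord_quot hdet (ho i).1 (hτ i)
    constructor
    · rintro ⟨h1, h2⟩ a (⟨i, hi, rfl⟩ | ⟨i, k, r, s, t, w, hdet, h3, h4, rfl⟩)
      · rw [hs1, h1 i hi, mul_zero]
      · rw [hs2]
        have h5 := h2 i k ⟨r, s, t, w, hdet, h3, h4⟩
        rw [hq i k r s t w hdet h3 h4] at h5
        by_cases h6 : point o τ i = 0
        · have h7 := point_ne (fun i => (ho i).1) hτ i h6
          have h8 : point o τ k = 0 := by rw [hq i k r s t w hdet h3 h4, h6, mul_zero]
          have h9 := point_ne (fun i => (ho i).1) hτ k h8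
          rw [h1 i h7, h1 k h9]
          ring
        · have h7 : u k = (t * conj (o i) + w) / (t * o i + w) * u i := by
            refine mul_right_cancel₀ h6 ?_
            linear_combination h5
          rw [h7, sub_self, mul_zero]
    · intro h
      refine ⟨fun i hi => ?_, fun i k hik => ?_⟩
      · have h1 := h _ (Or.inl ⟨i, hi, rfl⟩)
        rw [hs1] at h1
        exact (mul_eq_zero.1 h1).resolve_left (hc i)
      · obtain ⟨r, s, t, w, hdet, h3, h4⟩ := hik
        have h1 := h _ (Or.inr ⟨i, k, r, s, t, w, hdet, h3, h4, rfl⟩)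
        rw [hs2] at h1
        have h2 := (mul_eq_zero.1 h1).resolve_left (hc k)
        rw [hq i k r s t w hdet h3 h4]
        linear_combination point o τ i * h2

/-- For all `n`, `k` there is `C` such that for all `D`, `N`, `H` with `(H + 2)^((D + 2)^C) ≤ N`, all special points `o` of
`ℍ^n`, all numbers `c_i ≠ 0` with `c_i / c_k` algebraic whenever `o_i` and `o_k` are isogenous, and `ε = ±1` there is a
set `S` of at most `n + 2` integers such that for all distinct integers `m_1, …, m_k` outside `S` with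
`N ≤ ε m_s ≤ N + H`, all points `v_s` with `j(v_s) = m_s`, and all points `τ` of `ℍ^n` each coordinate of which is
isogenous to one of the `v_s`: the space `Tangent o τ` contains the point `point o τ` and is rational for both
structures, and it is contained in all the subspaces `V` which contain `point o τ` and are rational for the arithmetic
structure over some number field of degree at most `D`. -/
theorem result (n k : ℕ) : ∃ C : ℕ, ∀ D N H : ℕ, (H + 2) ^ ((D + 2) ^ C) ≤ N →
    ∀ o c : Fin n → ℂ, (∀ i, Special (o i)) → (∀ i, c i ≠ 0) → Compatible o c → ∀ ε : ℤ, ε = 1 ∨ ε = -1 →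
    ∃ S : Finset ℤ, S.card ≤ n + 2 ∧ ∀ m : Fin k → ℤ, Function.Injective m →
      (∀ s, (N : ℤ) ≤ ε * m s ∧ ε * m s ≤ N + H ∧ m s ∉ S) →
      ∀ v : Fin k → ℂ, (∀ s, 0 < (v s).im ∧ J (v s) = m s) →
      ∀ (κ : Fin n → Fin k) (τ : Fin n → ℂ), (∀ i, Isogenous (v (κ i)) (τ i)) →
        point o τ ∈ Tangent o τ ∧ Rational Qbar c (Tangent o τ) ∧ Rational Qbar (fun _ => 1) (Tangent o τ) ∧
        ∀ K : IntermediateField ℚ ℂ, FiniteDimensional ℚ K → Module.finrank ℚ K ≤ D →
          ∀ V : Submodule ℂ (Fin n → ℂ), Rational (K : Set ℂ) c V → point o τ ∈ V → Tangent o τ ≤ V := by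
  classical
  obtain ⟨C, hC⟩ := Pool.Agent.Results.MP_47914d_nt.GrowingDegreeIsogenies.result n k
  refine ⟨(n + 3) * C, fun D N H hN o c ho hc hcomp ε hε => ?_⟩
  have hle : D * 2 ^ n + n + 1 + 2 ≤ (D + 2) ^ (n + 3) := by
    have h1 : 2 ^ (n + 2) ≤ (D + 2) ^ (n + 2) := Nat.pow_le_pow_left (by omega) _
    have h2 : n < 2 ^ n := Nat.lt_two_pow_self
    calc D * 2 ^ n + n + 1 + 2 ≤ (D + 2) * 2 ^ (n + 2) := by
          have h3 : 2 ^ (n + 2) = 4 * 2 ^ n := by ring
          rw [h3]
          nlinarith [Nat.zero_le (D * 2 ^ n)]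
      _ ≤ (D + 2) * (D + 2) ^ (n + 2) := Nat.mul_le_mul le_rfl h1
      _ = (D + 2) ^ (n + 3) := by ring
  have hN' : (H + 2) ^ ((D * 2 ^ n + n + 1 + 2) ^ C) ≤ N := by
    refine le_trans (Nat.pow_le_pow_right (by omega) ?_) hN
    rw [pow_mul]
    exact Nat.pow_le_pow_left hle C
  obtain ⟨S, hS, hS2⟩ := hC (D * 2 ^ n + n + 1) N H hN' c ε hε
  refine ⟨S, hS, fun m hm hmS v hv κ τ hτ => ?_⟩
  choose A B C' D' hdet hτ' using hτ
  have hτim : ∀ i, 0 < (τ i).im := by
    intro i
    have h0 := Pool.Agent.N207.HY.cd_ne (hdet i) (hv (κ i)).1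
    have h1 : τ i * (C' i * v (κ i) + D' i) = A i * v (κ i) + B i := by
      rw [hτ' i]
      exact div_mul_cancel₀ _ h0
    have hi := congrArg Complex.im h1
    have hr := congrArg Complex.re h1
    simp only [Complex.add_im, Complex.mul_im, Complex.ratCast_re, Complex.ratCast_im,
      Complex.add_re, Complex.mul_re, add_zero, sub_zero, zero_mul] at hi hr
    have hv' := (hv (κ i)).1
    set x := v (κ i) with hx
    have h2 : (τ i).im * (((C' i : ℝ) * x.re + D' i) ^ 2 + (C' i * x.im) ^ 2) = x.im * (A i * D' i - B i * C' i) := by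
      linear_combination ((C' i : ℝ) * x.re + D' i) * hi - (C' i * x.im) * hr
    have h3 : 0 < x.im * ((A i : ℝ) * D' i - B i * C' i) := by
      refine mul_pos hv' ?_
      exact_mod_cast hdet i
    rw [← h2] at h3
    have h4 : 0 ≤ ((C' i : ℝ) * x.re + D' i) ^ 2 + (C' i * x.im) ^ 2 := by positivity
    exact pos_of_mul_pos_left h3 h4
  refine ⟨⟨fun i hi => ?_, fun i l _ => mul_comm _ _⟩, rational_tangent ho hτim hc hcomp,
    rational_tangent ho hτim (fun _ => one_ne_zero) (fun i l _ => ?_), ?_⟩
  · show (τ i - o i) / _ = 0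
    rw [hi, sub_self, zero_div]
  · rw [div_one]
    exact isAlgebraic_one
  · intro K hK hKD V hV hz u hu
    obtain ⟨F, hFK, hF⟩ := hV
    rw [hF] at hz ⊢
    intro a ha
    have hza := hz a ha
    obtain ⟨L, hL1, hL2, hKL, hoL⟩ := Pool.Agent.N207.HY.exists_field o ho K
    have haL : ∀ i, a i ∈ L := fun i => hKL (hFK a ha i)
    set P := Pool.Agent.N207.HY.pol (F := L) κ A B C' D' (fun i => ⟨o i, (hoL i).1⟩)
      (fun i => ⟨conj (o i), (hoL i).2⟩) (fun i => ⟨a i, haL i⟩) with hP
    have hLd : Module.finrank ℚ L ≤ D * 2 ^ n + n + 1 := by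
      have := Nat.mul_le_mul_right (2 ^ n) hKD
      omega
    have hPd : P.totalDegree ≤ D * 2 ^ n + n + 1 := (Pool.Agent.N207.HY.pol_deg _ _ _ _ _ _ _ _).trans (by omega)
    have hev : ∀ x : Fin k → ℂ, MvPolynomial.aeval (Sum.elim
        (Pool.Agent.Results.MP_47914d_nt.GrowingDegreeIsogenies.constants c) x) P =
        ∑ i, a i * c i * (((A i : ℂ) * x (κ i) + B i - o i * (C' i * x (κ i) + D' i)) *
          ∏ l ∈ Finset.univ.erase i, ((A l : ℂ) * x (κ l) + B l - conj (o l) * (C' l * x (κ l) + D' l))) := by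
      intro x
      exact Pool.Agent.N207.HY.pol_eval (F := L) κ A B C' D' _ _ _ _ x
    have h0 : MvPolynomial.aeval (Sum.elim
        (Pool.Agent.Results.MP_47914d_nt.GrowingDegreeIsogenies.constants c) v) P = 0 := by
      rw [hev]
      have h1 : ∀ i, (A i : ℂ) * v (κ i) + B i - o i * (C' i * v (κ i) + D' i) =
          point o τ i * ((A i : ℂ) * v (κ i) + B i - conj (o i) * (C' i * v (κ i) + D' i)) := by
        intro i
        have h2 := Pool.Agent.N207.HY.cd_ne (hdet i) (hv (κ i)).1
        have h3 : (A i : ℂ) * v (κ i) + B i = τ i * (C' i * v (κ i) + D' i) := by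
          rw [hτ' i]
          exact (div_mul_cancel₀ _ h2).symm
        have h4 : τ i - conj (o i) ≠ 0 := by
          intro h
          have h5 := congrArg Complex.im h
          simp only [Complex.sub_im, Complex.conj_im, Complex.zero_im] at h5
          have := (ho i).1
          have := hτim i
          linarith
        rw [h3]
        unfold point
        field_simp
      have h2 : ∀ i, a i * c i * (((A i : ℂ) * v (κ i) + B i - o i * (C' i * v (κ i) + D' i)) *
          ∏ l ∈ Finset.univ.erase i, ((A l : ℂ) * v (κ l) + B l - conj (o l) * (C' l * v (κ l) + D' l))) =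
          (a i * (c i * point o τ i)) *
            ∏ l, ((A l : ℂ) * v (κ l) + B l - conj (o l) * (C' l * v (κ l) + D' l)) := by
        intro i
        rw [h1 i, ← Finset.mul_prod_erase Finset.univ _ (Finset.mem_univ i)]
        ring
      rw [Finset.sum_congr rfl fun i _ => h2 i, ← Finset.sum_mul, hza, zero_mul]
    have h1 := hS2 m hm hmS v (fun s => ⟨v s, (hv s).1, (hv s).2, 1, 0, 0, 1, by norm_num, by simp⟩) L hL1 hLd P hPd h0
    have h2 : ∀ x : Fin k → ℂ, ∑ i, a i * c i * (((A i : ℂ) * x (κ i) + B i - o i * (C' i * x (κ i) + D' i)) *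
          ∏ l ∈ Finset.univ.erase i, ((A l : ℂ) * x (κ l) + B l - conj (o l) * (C' l * x (κ l) + D' l))) = 0 := by
      intro x
      rw [← hev, ← Pool.Agent.N207.HY.eval_gen]
      have h3 := congrArg (MvPolynomial.eval x) h1
      rw [map_zero] at h3
      exact h3
    exact Pool.Agent.N207.HY.key κ A B C' D' hdet o c a (fun i => (ho i).1) v (fun s => (hv s).1) τ hτ' h2 u hu.1
      (fun i j hij => hu.2 i j hij)

end Pool.Agent.Results.MP_1e27bd_ag.ModularProducts
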