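import Pool.Agent.Results.MP_47914d_nt.IsogenyClasses
import Pool.Agent.Results.MP_1e27bd_ag.ModularProducts

/-!
# The hyperbolic analytic subspace conjecture for products of modular curves and almost all integral invariants

As in `ModularProducts`, let `S = Y(1)^n`, let `o` be a special point, and consider the points `z` of `X = ℍ^n` whose
coordinates are isogenous (by arbitrary isogenies) to points with integral invariants `t_1, …, t_k`. There the integers
`t_s` have to be in one short window, with a bounded number of exceptions. Here the integers `t_s` are in arbitrary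
boxes `x_s < |t_s| ≤ x_s + N`, for instance all `|t_s| ≤ N`, and we count the exceptional tuples: for every number
field `K` of degree at most `D` all but `C N^(k-1) ∑ (1 + N / (x_s + N)^e)` of the `k`-tuples `t` have the property that
every subspace `V` which is rational over `K` for the arithmetic structure and contains one of these points `z` contains
the tangent space of the Shimura subvariety through `[o]` and `[z]`. The constants depend only on `n`, `k`, `D`, not on
`o`, the numbers `c`, `K`, and there is no bound for the height of `V`.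
-/

set_option autoImplicit false

open scoped ComplexConjugate

namespace Pool.Agent.Results.MP_1e27bd_ag.AlmostAllInvariants

open Pool.Agent.Results.MP_1e27bd_ag.ModularProducts
open Pool.Agent.Results.MP_47914d_nt.IsogenyClasses (J)

/-- There are points `v_s` with invariants `t_s`, a point `τ` of `ℍ^n` each coordinate of which is isogenous to one of
the `v_s`, and a subspace `V`, rational over `K` for the arithmetic structure, which contains `point o τ` but not
`Tangent o τ`. -/
def Exceptional {n k : ℕ} (K : Set ℂ) (o c : Fin n → ℂ) (t : Fin k → ℤ) : Prop :=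
  ∃ (v : Fin k → ℂ) (κ : Fin n → Fin k) (τ : Fin n → ℂ), (∀ s, 0 < (v s).im ∧ J (v s) = t s) ∧
    (∀ i, Isogenous (v (κ i)) (τ i)) ∧
    ∃ V : Submodule ℂ (Fin n → ℂ), Rational K c V ∧ point o τ ∈ V ∧ ¬ Tangent o τ ≤ V

lemma im_pos {A B C D : ℚ} (hdet : 0 < A * D - B * C) {x : ℂ} (hx : 0 < x.im) :
    0 < (((A : ℂ) * x + B) / (C * x + D)).im := by
  have h0 := Pool.Agent.N207.HY.cd_ne hdet hx
  set τ := ((A : ℂ) * x + B) / (C * x + D) with hτ
  have h1 : τ * (C * x + D) = A * x + B := div_mul_cancel₀ _ h0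
  have hi := congrArg Complex.im h1
  have hr := congrArg Complex.re h1
  simp only [Complex.add_im, Complex.mul_im, Complex.ratCast_re, Complex.ratCast_im,
    Complex.add_re, Complex.mul_re, add_zero, sub_zero, zero_mul] at hi hr
  have h2 : τ.im * (((C : ℝ) * x.re + D) ^ 2 + (C * x.im) ^ 2) = x.im * (A * D - B * C) := by
    linear_combination ((C : ℝ) * x.re + D) * hi - (C * x.im) * hr
  have h3 : 0 < x.im * ((A : ℝ) * D - B * C) := by
    refine mul_pos hx ?_
    exact_mod_cast hdet
  rw [← h2] at h3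
  have h4 : 0 ≤ ((C : ℝ) * x.re + D) ^ 2 + (C * x.im) ^ 2 := by positivity
  exact pos_of_mul_pos_left h3 h4

lemma eval_zero {n k : ℕ} {o c a τ : Fin n → ℂ} {κ : Fin n → Fin k} {v : Fin k → ℂ} {A B C' D' : Fin n → ℚ}
    (ho : ∀ i, Special (o i)) (hdet : ∀ i, 0 < A i * D' i - B i * C' i) (hv : ∀ s, 0 < (v s).im)
    (hτ' : ∀ i, τ i = ((A i : ℂ) * v (κ i) + B i) / (C' i * v (κ i) + D' i)) (hτim : ∀ i, 0 < (τ i).im)
    (hza : ∑ i, a i * (c i * point o τ i) = 0) :
    ∑ i, a i * c i * (((A i : ℂ) * v (κ i) + B i - o i * (C' i * v (κ i) + D' i)) *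
      ∏ l ∈ Finset.univ.erase i, ((A l : ℂ) * v (κ l) + B l - conj (o l) * (C' l * v (κ l) + D' l))) = 0 := by
  classical
  have h1 : ∀ i, (A i : ℂ) * v (κ i) + B i - o i * (C' i * v (κ i) + D' i) =
      point o τ i * ((A i : ℂ) * v (κ i) + B i - conj (o i) * (C' i * v (κ i) + D' i)) := by
    intro i
    have h2 := Pool.Agent.N207.HY.cd_ne (hdet i) (hv (κ i))
    have h3 : (A i : ℂ) * v (κ i) + B i = τ i * (C' i * v (κ i) + D' i) := by
      rw [hτ' i]
      exact (div_mul_cancel₀ _ h2).symm
    have h4 : τ i - conj (o i) ≠ 0 := by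
      intro h
      have h5 := congrArg Complex.im h
      simp only [Complex.sub_im, Complex.conj_im, Complex.zero_im] at h5
      have := (ho i).1
      have := hτim i
      linarith
    rw [h3]
    unfold point
    field_simp
  have h2 : ∀ i, a i * c i * (((A i : ℂ) * v (κ i) + B i - o i * (C' i * v (κ i) + D' i)) *
      ∏ l ∈ Finset.univ.erase i, ((A l : ℂ) * v (κ l) + B l - conj (o l) * (C' l * v (κ l) + D' l))) =
      (a i * (c i * point o τ i)) *
        ∏ l, ((A l : ℂ) * v (κ l) + B l - conj (o l) * (C' l * v (κ l) + D' l)) := by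
    intro i
    rw [h1 i, ← Finset.mul_prod_erase Finset.univ _ (Finset.mem_univ i)]
    ring
  rw [Finset.sum_congr rfl fun i _ => h2 i, ← Finset.sum_mul, hza, zero_mul]

/-- the linear factor -/
noncomputable def lin1 {n k : ℕ} {F : Type} [Field F] [Algebra ℚ F] (κ : Fin n → Fin k) (A B C D : Fin n → ℚ)
    (o : Fin n → F) (i : Fin n) : MvPolynomial (Fin k) F :=
  MvPolynomial.C (algebraMap ℚ F (A i)) * MvPolynomial.X (κ i) + MvPolynomial.C (algebraMap ℚ F (B i)) -
    MvPolynomial.C (o i) * (MvPolynomial.C (algebraMap ℚ F (C i)) * MvPolynomial.X (κ i) +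
      MvPolynomial.C (algebraMap ℚ F (D i)))

open MvPolynomial in
lemma lin1_deg {n k : ℕ} {F : Type} [Field F] [Algebra ℚ F] (κ : Fin n → Fin k) (A B C D : Fin n → ℚ)
    (o : Fin n → F) (i : Fin n) : (lin1 κ A B C D o i).totalDegree ≤ 1 := by
  unfold lin1
  have h1 : ∀ c : F, (MvPolynomial.C c * X (κ i) : MvPolynomial (Fin k) F).totalDegree ≤ 1 := by
    intro c
    refine (totalDegree_mul _ _).trans ?_
    rw [totalDegree_C, totalDegree_X]
  have h2 : ∀ c d : F, (MvPolynomial.C c * X (κ i) + MvPolynomial.C d : MvPolynomial (Fin k) F).totalDegree ≤ 1 := by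
    intro c d
    refine (totalDegree_add _ _).trans (max_le (h1 c) ?_)
    rw [totalDegree_C]
    omega
  refine (totalDegree_sub _ _).trans (max_le (h2 _ _) ((totalDegree_mul _ _).trans ?_))
  rw [totalDegree_C, zero_add]
  exact h2 _ _

lemma map_deg {k : ℕ} {L : IntermediateField ℚ ℂ} (p : MvPolynomial (Fin k) L) :
    (MvPolynomial.map (algebraMap L ℂ) p).totalDegree ≤ p.totalDegree := by
  refine Finset.sup_mono ?_
  intro m hm
  rw [MvPolynomial.mem_support_iff, MvPolynomial.coeff_map] at hm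
  rw [MvPolynomial.mem_support_iff]
  intro h
  rw [h, map_zero] at hm
  exact hm rfl

/-- The space `Tangent o τ` contains `point o τ` and is rational for both structures. For all `n`, `k`, `D` there are
`e > 0` and `C` such that for all special points `o`, all numbers `c`, all number
fields `K` of degree at most `D`, all `x_1, …, x_k` and `N`, at most `C N^(k-1) ∑ (1 + N / (x_s + N)^e)` of the
`k`-tuples of integers with `x_s < |t_s| ≤ x_s + N` are exceptional. -/
theorem result (n k D : ℕ) :
    (∀ o τ c : Fin n → ℂ, (∀ i, Special (o i)) → (∀ i, 0 < (τ i).im) → (∀ i, c i ≠ 0) → Compatible o c →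
      point o τ ∈ Tangent o τ ∧ Rational Qbar c (Tangent o τ) ∧ Rational Qbar (fun _ => 1) (Tangent o τ)) ∧
    ∃ e C : ℝ, 0 < e ∧ 0 ≤ C ∧ ∀ o c : Fin n → ℂ, (∀ i, Special (o i)) →
      ∀ K : IntermediateField ℚ ℂ, FiniteDimensional ℚ K → Module.finrank ℚ K ≤ D →
      ∀ (x : Fin k → ℕ) (N : ℕ), 1 ≤ N → ∀ S : Finset (Fin k → ℤ),
      (∀ t ∈ S, (∀ s, (x s : ℤ) < |t s| ∧ |t s| ≤ x s + N) ∧ Exceptional (K : Set ℂ) o c t) →
      (S.card : ℝ) ≤ C * (N : ℝ) ^ (k - 1) * ∑ s, (1 + N / ((x s : ℝ) + N) ^ e) := by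
  classical
  refine ⟨fun o τ c ho hτ hc hcomp => ⟨⟨fun i hi => ?_, fun i l _ => mul_comm _ _⟩, rational_tangent ho hτ hc hcomp,
    rational_tangent ho hτ (fun _ => one_ne_zero) (fun i l _ => ?_)⟩, ?_⟩
  · show (τ i - o i) / _ = 0
    rw [hi, sub_self, zero_div]
  · rw [div_one]
    exact isAlgebraic_one
  obtain ⟨e, C, he, hC, h⟩ := Pool.Agent.Results.MP_47914d_nt.IsogenyClasses.result k (n + 1) (n * (D * 2 ^ n))
  refine ⟨e, C, he, hC, fun o c ho K hK hKD x N hN S hS => ?_⟩
  obtain ⟨L, hL1, hL2, hKL, hoL⟩ := Pool.Agent.N207.HY.exists_field o ho K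
  -- the space of the coefficients
  let φ : (Fin n → L) →ₗ[ℚ] ℂ :=
    { toFun := fun y => ∑ i, c i * (y i : ℂ)
      map_add' := fun y z => by
        rw [← Finset.sum_add_distrib]
        exact Finset.sum_congr rfl fun i _ => by
          rw [Pi.add_apply, IntermediateField.coe_add]; ring
      map_smul' := fun r y => by
        rw [RingHom.id_apply, Finset.smul_sum]
        exact Finset.sum_congr rfl fun i _ => by
          rw [Pi.smul_apply, IntermediateField.coe_smul, mul_smul_comm] }
  have hfin : Module.finrank ℚ (LinearMap.range φ) ≤ n * (D * 2 ^ n) := by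
    refine (LinearMap.finrank_range_le φ).trans ?_
    rw [Module.finrank_pi_fintype]
    simp only [Finset.sum_const, Finset.card_univ, Fintype.card_fin, smul_eq_mul]
    refine Nat.mul_le_mul le_rfl (hL2.trans (Nat.mul_le_mul hKD le_rfl))
  refine h (LinearMap.range φ) hfin x N hN S fun t ht => ⟨(hS t ht).1, ?_⟩
  obtain ⟨v, κ, τ, hv, hτ, V, ⟨F, hFK, hF⟩, hz, hnot⟩ := (hS t ht).2
  obtain ⟨u, hu, huV⟩ := Set.not_subset.1 hnot
  have huV' : ¬ ∀ a ∈ F, ∑ i, a i * (c i * u i) = 0 := fun hh => huV ((hF u).2 hh)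
  push Not at huV'
  obtain ⟨a, ha, hau⟩ := huV'
  have hza : ∑ i, a i * (c i * point o τ i) = 0 := (hF _).1 hz a ha
  have haL : ∀ i, a i ∈ L := fun i => hKL (hFK a ha i)
  choose A B C' D' hdet hτ' using hτ
  have hτim : ∀ i, 0 < (τ i).im := fun i => by
    rw [hτ' i]
    exact im_pos (hdet i) (hv (κ i)).1
  let q : Fin n → MvPolynomial (Fin k) L := fun i => MvPolynomial.C (⟨a i, haL i⟩ : L) *
    (lin1 κ A B C' D' (fun i => (⟨o i, (hoL i).1⟩ : L)) i *
      ∏ l ∈ Finset.univ.erase i, lin1 κ A B C' D' (fun i => (⟨conj (o i), (hoL i).2⟩ : L)) l)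
  let P : MvPolynomial (Fin k) ℂ := ∑ i, MvPolynomial.C (c i) * MvPolynomial.map (algebraMap L ℂ) (q i)
  have hev : ∀ y : Fin k → ℂ, MvPolynomial.eval y P =
      ∑ i, a i * c i * (((A i : ℂ) * y (κ i) + B i - o i * (C' i * y (κ i) + D' i)) *
        ∏ l ∈ Finset.univ.erase i, ((A l : ℂ) * y (κ l) + B l - conj (o l) * (C' l * y (κ l) + D' l))) := by
    intro y
    have hq : ∀ r : ℚ, algebraMap L ℂ (algebraMap ℚ L r) = (r : ℂ) := fun r => by simp
    have h1 : ∀ (o' : Fin n → L) i, MvPolynomial.eval y (MvPolynomial.map (algebraMap L ℂ) (lin1 κ A B C' D' o' i)) =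
        (A i : ℂ) * y (κ i) + B i - algebraMap L ℂ (o' i) * (C' i * y (κ i) + D' i) := by
      intro o' i
      unfold lin1
      simp only [map_sub, map_add, map_mul, MvPolynomial.map_C, MvPolynomial.map_X, MvPolynomial.eval_C,
        MvPolynomial.eval_X, hq]
    show MvPolynomial.eval y (∑ i, MvPolynomial.C (c i) * MvPolynomial.map (algebraMap L ℂ) (q i)) = _
    rw [map_sum]
    refine Finset.sum_congr rfl fun i _ => ?_
    show MvPolynomial.eval y (MvPolynomial.C (c i) * MvPolynomial.map (algebraMap L ℂ) (MvPolynomial.C (⟨a i, haL i⟩ : L) *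
      (lin1 κ A B C' D' (fun i => (⟨o i, (hoL i).1⟩ : L)) i *
        ∏ l ∈ Finset.univ.erase i, lin1 κ A B C' D' (fun i => (⟨conj (o i), (hoL i).2⟩ : L)) l))) = _
    simp only [map_mul, map_prod, MvPolynomial.map_C, MvPolynomial.eval_C, h1]
    show c i * (a i * _) = _
    simp only [IntermediateField.algebraMap_apply]
    ring
  have hPv : MvPolynomial.eval v P = 0 := by
    rw [hev]
    exact eval_zero ho hdet (fun s => (hv s).1) hτ' hτim hza
  have hP0 : P ≠ 0 := by
    intro hP0
    apply hau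
    refine Pool.Agent.N207.HY.key κ A B C' D' hdet o c a (fun i => (ho i).1) v (fun s => (hv s).1) τ hτ' (fun y => ?_) u
      hu.1 (fun i j hij => hu.2 i j hij)
    rw [← hev, hP0, map_zero]
  refine ⟨v, fun s => ⟨v s, (hv s).1, (hv s).2, 1, 0, 0, 1, by norm_num, by simp⟩, P, hP0, ?_, fun m => ?_, hPv⟩
  · refine MvPolynomial.totalDegree_finsetSum_le fun i _ => ?_
    refine (MvPolynomial.totalDegree_mul _ _).trans ?_
    rw [MvPolynomial.totalDegree_C, zero_add]
    refine (map_deg _).trans ?_
    refine (MvPolynomial.totalDegree_mul _ _).trans ?_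
    rw [MvPolynomial.totalDegree_C, zero_add]
    refine (MvPolynomial.totalDegree_mul _ _).trans ?_
    refine (Nat.add_le_add (lin1_deg _ _ _ _ _ _ _) ((MvPolynomial.totalDegree_finsetProd _ _).trans
      (Finset.sum_le_card_nsmul _ _ 1 fun l _ => lin1_deg _ _ _ _ _ _ _))).trans ?_
    rw [Finset.card_erase_of_mem (Finset.mem_univ i), Finset.card_univ, Fintype.card_fin]
    simp only [smul_eq_mul, mul_one]
    omega
  · refine ⟨fun i => (q i).coeff m, ?_⟩
    show ∑ i, c i * (((q i).coeff m : L) : ℂ) = _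
    show _ = MvPolynomial.coeff m (∑ i, MvPolynomial.C (c i) * MvPolynomial.map (algebraMap L ℂ) (q i))
    rw [MvPolynomial.coeff_sum]
    refine Finset.sum_congr rfl fun i _ => ?_
    have h5 : MvPolynomial.coeff m (MvPolynomial.C (c i) * MvPolynomial.map (algebraMap L ℂ) (q i)) =
        c i * algebraMap L ℂ (MvPolynomial.coeff m (q i)) := by
      rw [MvPolynomial.coeff_C_mul m (c i) (MvPolynomial.map (algebraMap L ℂ) (q i)), MvPolynomial.coeff_map]
    rw [h5]
    rfl

end Pool.Agent.Results.MP_1e27bd_ag.AlmostAllInvariants
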