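import Pool.Agent.N208.HA.Core
import Pool.Agent.N208.HA.Dec

/-!
# The hyperbolic analytic subspace conjecture at 100 percent of the hyperelliptic Jacobians

Let `S` be the product of the Shimura varieties `𝔸_{g_i}`, `i` in a finite set `ι`, let `X` be the product of the Siegel
spaces, `o ∈ X` a special point and `T_o X` the tangent space with its arithmetic `ℚ̄`-structure. The conjecture (the
first question) says: if `z ∈ X` lies above a point `[z] ∈ S(ℚ̄)` and its Harish-Chandra coordinate is in a subspace `V` of
`T_o X` which is rational for the arithmetic structure, then it is in a bi-`ℚ̄`-subspace `V' ⊆ V`.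

We consider the points `[z]` given by the Jacobians of the hyperelliptic curves
`C_i : y² = F_i(x) = ∏ (x - e_(i,r))`, `r ≤ 2 g_i`. For `g_i ≤ 2` these are all dimensions of `𝔸_{g_i}`: so for
`S = 𝔸_1 ^ a × 𝔸_2 ^ b` the points `[z]` are dense for the Zariski topology, and a part of all points of `S(ℚ̄)` of height
at most `T` in a compact set. The theorem says that for all points `e` of height at most `T` over all number fields `K`
of degree at most `ω(T)` (in a compact set which increases to everything), apart from those on at most `T ^ (1/ω(T))`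
hypersurfaces of degree at most `T ^ (1/ω(T))`, the coordinate of `z` is contained in *no* subspace `V ≠ T_o X` which is
given by linear equations over `K` with coefficients of size at most `T ^ ω(T)`. Here `ω → ∞`. So for these `z` and `V`
the conjecture is true, with `V' = V = T_o X`. The points `z` are not special in general (there are no restrictions for
`z`), and the point `o` and the `ℚ̄`-structure of `T_o X` are arbitrary.

## The Siegel space, the tangent space and the Harish-Chandra coordinates

For a curve `y² = F(x)` of genus `g` with branch points `e_0, …, e_(2g)` in the order of the real parts, the loops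
`γ_l` around the segments from `e_l` to `e_(l+1)`, `l < 2 g`, are a basis of `H_1(C, ℤ)`, with the intersection numbers
given by `chain` (up to a common sign, with suitable orientations), and the integral of `x ^ j dx / y` over `γ_l`
is `periods e l j = 2 i ^ l ∫ x ^ j dx / √(± F)`, the integral over the segment. The classes in `H¹(C, ℂ)` are given by
the vectors of their integrals over the loops `γ_l`. The points of `X` are the Hodge filtrations `F¹ ⊆ H¹(C, ℂ) = ℂ ^ {2g}`:
the Lagrangian subspaces on which the hermitian form is positive. A point `o` is given by a matrix `W` whose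
columns are a basis of `F¹_o`; then the columns of `W` and the complex conjugate columns, which are a basis of the complex
conjugate of `F¹_o`, are a basis of `ℂ ^ {2g}` (`IsPoint`; we need no other property of `o`).

The tangent space `T_o X` is the space of the endomorphisms `N` in the Lie algebra of the symplectic group of
`H¹(C, ℂ)` (`N J + J Nᵀ = 0`, where `J` is the intersection matrix of the loops) which map `F¹_o` to its complex conjugate
and annihilate the complex conjugate: this is the abelian Lie algebra `𝔭⁺`. The Harish-Chandra embedding maps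
the point `z` of `X` to the unique `N ∈ T_o X` with `F¹_z = (1 + N) F¹_o = exp(N) F¹_o`. Here `F¹_z` is the space of the
differentials of the first kind, with the basis `x ^ j dx / y`, `j < g`: so the condition is
`P Y = (1 + N) W` with the period matrix `P` and a matrix `Y` (which is then invertible). For a product `N`
is a family `N_i`.

A `ℚ̄`-structure of `T_o X` is the `ℚ̄`-span of a basis `b` of `T_o X` over `ℂ`; for the arithmetic structure one
takes a basis of `ψ⁻¹(T_[o] S_ℚ̄)`. With the coordinates `y` for `b` (`N = ∑ y_j b_j`, `combine b y`) the subspaces of `T_o X`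
are the subspaces of `ℂ ^ d`, and such a subspace `V` is rational if and only if it is given by linear equations with
coefficients in `ℚ̄`, that is with coefficients in the ring of integers of a number field.

## Proof

The equations `∑ c_j y_j = 0` for the coordinates `y_j` of `N` are, after the multiplication with the determinants
of the components of `P` in `F¹_o`, polynomial relations between the periods of the first kind, with coefficients
which are combinations over the ring of integers of `K` of constants which depend only on `o` and `b`. By the theorem of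
`Pool.Agent.N207.UH.Main` (helper207, for `Results.MP_ae0f86_nt.UniversalHyperelliptic`; it uses the monodromy theorem and
the theorem on few exceptions of the library) such relations hold, apart from the exceptional points, on the whole
torsor of the Riemann-Legendre relations. The symplectic maps `1 + (M - N)`, `M ∈ T_o X`, act on this
torsor and map `F¹_z = (1 + N) F¹_o` to `(1 + M) F¹_o`. So the equation holds for all `M ∈ T_o X`, and all `c_j` are zero.
-/

set_option autoImplicit false

open Filter NumberField

namespace Pool.Agent.Results.MP_1e27bd_ag.HyperellipticPoints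

variable {ι : Type}

/-! ### Hyperelliptic curves and their periods -/

/-- The names of the parameters: the branch points `e_(i,r)`, `r ≤ 2 g i` (the second summand is empty). -/
abbrev Params (g : ι → ℕ) : Type := Σ i, Fin (2 * g i + 1) ⊕ Fin 0

/-- The branch points of the curve `C_i`. -/
def branch {g : ι → ℕ} {R : Type} (x : Params g → R) (i : ι) : Fin (2 * g i + 1) → R := fun r => x ⟨i, Sum.inl r⟩

/-- The parameters such that for every `i` the real parts of `e_(i,0), …, e_(i,2 g i)` increase. -/
def Domain (g : ι → ℕ) : Set (Params g → ℂ) :=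
  {x | ∀ i, ∀ r s : Fin (2 * g i + 1), r < s → (branch x i r).re < (branch x i s).re}

/-- The point of the segment from `p` to `q` with the parameter `u`. -/
noncomputable def segment (p q : ℂ) (u : ℝ) : ℂ := (1 - u) * p + u * q

/-- The integral of `x ^ j dx / √(± F)`, `F = ∏ (x - e i)`, from `e l` to `e (l + 1)`, with
`x = e l + (e (l + 1) - e l) (sin θ)²`. -/
noncomputable def cycleIntegral {n : ℕ} (e : Fin (n + 1) → ℂ) (l : Fin n) (j : ℕ) : ℂ :=
  ∫ θ in (0 : ℝ)..(Real.pi / 2), 2 * (segment (e l.castSucc) (e l.succ) (Real.sin θ ^ 2) ^ j *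
    ∏ i : Fin (n + 1), if i < l.castSucc then (segment (e l.castSucc) (e l.succ) (Real.sin θ ^ 2) - e i) ^ (-(1 / 2) : ℂ)
      else if l.succ < i then (e i - segment (e l.castSucc) (e l.succ) (Real.sin θ ^ 2)) ^ (-(1 / 2) : ℂ) else 1)

/-- The matrix of the periods of the differentials of the first kind `x ^ j dx / y`, `j < g`, of the curve
`y² = ∏ (x - e r)` over the loops around the segments from `e l` to `e (l + 1)`, `l < 2 g`. (Since
`F = (-1) ^ l * (± F)` on this segment, `1 / y = ± i ^ l / √(± F)`.) -/
noncomputable def periods {g : ℕ} (e : Fin (2 * g + 1) → ℂ) : Matrix (Fin (2 * g)) (Fin g) ℂ :=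
  Matrix.of fun l j => 2 * Complex.I ^ (l : ℕ) * cycleIntegral e l (j : ℕ)

/-- The intersection matrix of the loops: consecutive loops have the intersection number one, the others zero. -/
def chain (n : ℕ) : Matrix (Fin n) (Fin n) ℂ :=
  Matrix.of fun r s => if (s : ℕ) = r + 1 then 1 else if (r : ℕ) = s + 1 then -1 else 0

/-! ### The tangent space at a point of the Siegel space -/

/-- The complex conjugate matrix. -/
noncomputable def conj {m n : Type} (W : Matrix m n ℂ) : Matrix m n ℂ := W.map (starRingEnd ℂ)

/-- The columns of `W` are the basis of a subspace `F¹` such that `H¹ = ℂ ^ {2g}` is the direct sum of `F¹` and of its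
complex conjugate. All points of the Siegel space are given by such matrices. -/
def IsPoint {g : ℕ} (W : Matrix (Fin (2 * g)) (Fin g) ℂ) : Prop :=
  LinearIndependent ℂ (Sum.elim (fun (j : Fin g) (i : Fin (2 * g)) => W i j) (fun j i => conj W i j))

/-- The tangent vectors at the point `o` given by `W`: the elements `N` of the Lie algebra of the symplectic group
which map `F¹_o` to its complex conjugate and annihilate the complex conjugate. -/
structure IsTangent {g : ℕ} (W : Matrix (Fin (2 * g)) (Fin g) ℂ) (N : Matrix (Fin (2 * g)) (Fin (2 * g)) ℂ) :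
    Prop where
  kills : N * conj W = 0
  maps : ∃ C : Matrix (Fin g) (Fin g) ℂ, N * W = conj W * C
  lie : N * chain (2 * g) + chain (2 * g) * N.transpose = 0

/-- The combination `∑ y_j b_j`. -/
noncomputable def combine {g : ι → ℕ} {d : ℕ} (b : Fin d → ∀ i, Matrix (Fin (2 * g i)) (Fin (2 * g i)) ℂ)
    (y : Fin d → ℂ) (i : ι) : Matrix (Fin (2 * g i)) (Fin (2 * g i)) ℂ :=
  ∑ j, y j • b j i

/-- `b` is a basis of the tangent space `T_o X` of the product of the Siegel spaces, the space of the families `N` of
tangent vectors `N i`: the combinations `∑ y_j b_j` are tangent vectors and every tangent vector is such a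
combination, with unique `y`. -/
def IsBasis {g : ι → ℕ} {d : ℕ} (W : ∀ i, Matrix (Fin (2 * g i)) (Fin (g i)) ℂ)
    (b : Fin d → ∀ i, Matrix (Fin (2 * g i)) (Fin (2 * g i)) ℂ) : Prop :=
  (∀ y i, IsTangent (W i) (combine b y i)) ∧
    ∀ N : (∀ i, Matrix (Fin (2 * g i)) (Fin (2 * g i)) ℂ), (∀ i, IsTangent (W i) (N i)) → ∃! y, combine b y = N

/-- The tangent vector `N` is the Harish-Chandra coordinate of the point `z` given by the curves with the branch points
`x`: `F¹_z = (1 + N) F¹_o`. (The matrices `Y` are then invertible.) -/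
def IsCoordinate {g : ι → ℕ} (W : ∀ i, Matrix (Fin (2 * g i)) (Fin (g i)) ℂ) (x : Params g → ℂ)
    (N : ∀ i, Matrix (Fin (2 * g i)) (Fin (2 * g i)) ℂ) : Prop :=
  ∀ i, ∃ Y : Matrix (Fin (g i)) (Fin (g i)) ℂ, periods (branch x i) * Y = (1 + N i) * W i

/-! ### Rational subspaces of bounded height -/

/-- The subspace `V` is given by linear equations with coefficients in the ring of integers of `K` all of whose
conjugates are at most `B`. -/
def DefinedOver {d : ℕ} (K : Type) [Field K] [NumberField K] (io : K →+* ℂ) (B : ℝ)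
    (V : Submodule ℂ (Fin d → ℂ)) : Prop :=
  ∃ E : Set (Fin d → 𝓞 K), (∀ c ∈ E, ∀ j (φ : K →+* ℂ), ‖φ (c j : K)‖ ≤ B) ∧
    ∀ y, y ∈ V ↔ ∀ c ∈ E, ∑ j, io (c j : K) * y j = 0

variable {g : ι → ℕ} {d : ℕ}

/-- The Harish-Chandra coordinate `∑ y_j b_j` of the point `z` given by `x` is in no proper subspace of `T_o X` which is
defined over `K` (in the coordinates for `b`) of height at most `T ^ k`. -/
def Good (W : ∀ i, Matrix (Fin (2 * g i)) (Fin (g i)) ℂ) (b : Fin d → ∀ i, Matrix (Fin (2 * g i)) (Fin (2 * g i)) ℂ)
    (K : Type) [Field K] [NumberField K] (io : K →+* ℂ) (k : ℕ) (T : ℝ) (x : Params g → ℂ) : Prop :=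
  ∀ y, IsCoordinate W x (combine b y) → ∀ V, DefinedOver K io (T ^ k) V → y ∈ V → V = ⊤

/-- The elements of `K` which are quotients of two integers all of whose conjugates have absolute value at most `T`. -/
def Height (K : Type) [Field K] [NumberField K] (T : ℝ) : Set K :=
  {x | ∃ a b : 𝓞 K, b ≠ 0 ∧ house (a : K) ≤ T ∧ house (b : K) ≤ T ∧ x = a / b}

variable [Fintype ι] [DecidableEq ι]

/-- The points with coordinates in `Height K T` in the compact set of the points of `Domain g` of norm at most `k` and
at distance at least `1 / k` from the complement, which are not good. -/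
def Exceptional (W : ∀ i, Matrix (Fin (2 * g i)) (Fin (g i)) ℂ)
    (b : Fin d → ∀ i, Matrix (Fin (2 * g i)) (Fin (2 * g i)) ℂ) (K : Type) [Field K] [NumberField K] (io : K →+* ℂ)
    (k : ℕ) (T : ℝ) : Set (Params g → K) :=
  {x | (∀ j, x j ∈ Height K T) ∧
    (‖fun j => io (x j)‖ ≤ k ∧ Metric.ball (fun j => io (x j)) (k : ℝ)⁻¹ ⊆ Domain g) ∧
    ¬ Good W b K io k T (fun j => io (x j))}

/-- The points of `E` lie on at most `B` hypersurfaces of degree at most `B`. -/
def OnHypersurfaces {K : Type} [Field K] (io : K →+* ℂ) (B : ℝ) (E : Set (Params g → K)) : Prop :=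
  ∃ Φ : Finset (MvPolynomial (Params g) ℂ), Φ.card ≤ ⌊B⌋₊ ∧ (∀ P ∈ Φ, P ≠ 0 ∧ P.totalDegree ≤ ⌊B⌋₊) ∧
    ∀ x ∈ E, ∃ P ∈ Φ, MvPolynomial.eval (fun j => io (x j)) P = 0

/-- `E` is finite, with at most `B * N ^ (m - 1)` elements, where `N` is the number of the elements of `Height K T` and
`m` is the number of the branch points. -/
def Sparse {K : Type} [Field K] [NumberField K] (T B : ℝ) (E : Set (Params g → K)) : Prop :=
  E.Finite ∧ (E.ncard : ℝ) ≤ B * ((Height K T).ncard : ℝ) ^ (Fintype.card (Params g) - 1)

open Pool.Agent.N208.HA Pool.Agent.N207.UH in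
theorem good_of {W : ∀ i, Matrix (Fin (2 * g i)) (Fin (g i)) ℂ} (hW : ∀ i, IsPoint (W i))
    {b : Fin d → ∀ i, Matrix (Fin (2 * g i)) (Fin (2 * g i)) ℂ} (hb : IsBasis W b) :
    ∃ k₀ : ℕ, ∀ k, k₀ ≤ k → ∃ ξ : Fin k → ℂ, ∀ (K : Type) [Field K] [NumberField K] (io : K →+* ℂ) (t : ℝ), 0 ≤ t →
      ∀ x ∈ Domain g, Generic (fun i => 2 * g i) (fun _ => 0) k K io ξ t x → Good W b K io k t x := by
  have hinj : Function.Injective (comb b) := by
    intro y y' h
    obtain ⟨u, -, hu⟩ := hb.2 (combine b y) (hb.1 y)
    rw [hu y rfl, hu y' h.symm]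
  have hdec : ∀ i, ∃ R S, Dec (W i) (conj (W i)) R S := fun i => exists_dec _ _ (hW i)
  choose R S hdec using hdec
  have hI : ∀ l : ℕ, (2 * Complex.I ^ l : ℂ) ≠ 0 := fun l =>
    mul_ne_zero two_ne_zero (pow_ne_zero _ Complex.I_ne_zero)
  obtain ⟨k₀, hk₀⟩ := core hdec (fun i => Matrix.diagonal fun l : Fin (2 * g i) => (2 * Complex.I ^ (l : ℕ) : ℂ))
    (fun i => Matrix.diagonal fun l : Fin (2 * g i) => (2 * Complex.I ^ (l : ℕ) : ℂ)⁻¹) (fun i => chain (2 * g i))
    (fun i => by
      rw [Matrix.diagonal_mul_diagonal, ← Matrix.diagonal_one]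
      congr 1
      funext l
      exact inv_mul_cancel₀ (hI l)) (-4 * Complex.I)
    (fun i => by
      ext r s
      rw [Matrix.diagonal_transpose, Matrix.mul_diagonal, Matrix.diagonal_mul, Matrix.smul_apply, smul_eq_mul]
      unfold Pool.Agent.Y118.HP.jm chain
      simp only [Matrix.of_apply]
      by_cases h1 : (s : ℕ) = r + 1
      · rw [if_pos (Or.inr h1), if_pos h1, h1, pow_succ]
        have h2 : Complex.I ^ (r : ℕ) * Complex.I ^ (r : ℕ) = (-1) ^ (r : ℕ) := by
          rw [← mul_pow, Complex.I_mul_I]
        have h3 : ((-1 : ℂ)) ^ (r : ℕ) * (-1) ^ (r : ℕ) = 1 := by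
          rw [← mul_pow]; norm_num
        linear_combination (-4 * Complex.I * (-1) ^ (r : ℕ)) * h2 - 4 * Complex.I * h3
      · by_cases h2 : (r : ℕ) = s + 1
        · rw [if_pos (Or.inl h2), if_neg h1, if_pos h2, h2, pow_succ, pow_succ]
          have h3 : Complex.I ^ (s : ℕ) * Complex.I ^ (s : ℕ) = (-1) ^ (s : ℕ) := by
            rw [← mul_pow, Complex.I_mul_I]
          have h4 : ((-1 : ℂ)) ^ (s : ℕ) * (-1) ^ (s : ℕ) = 1 := by
            rw [← mul_pow]; norm_num
          linear_combination (4 * Complex.I * (-1) ^ (s : ℕ)) * h3 + 4 * Complex.I * h4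
        · rw [if_neg (by tauto), if_neg h1, if_neg h2]
          ring)
    b (fun y i => ⟨(hb.1 y i).kills, (hb.1 y i).maps, (hb.1 y i).lie⟩) hinj
  refine ⟨k₀, fun k hk => ?_⟩
  obtain ⟨ξ, hξ⟩ := hk₀ k hk
  refine ⟨ξ, fun K _ _ io t ht x hx hgen y hN V hV hNV => ?_⟩
  have hx' : x ∈ Conf (fun i => 2 * g i) (fun _ => 0) := fun i => ⟨hx i, fun s => s.elim0, fun s => s.elim0⟩
  obtain ⟨E, hE, hVE⟩ := hV
  have hP : ∀ i, P1 (fun i => Matrix.diagonal fun l : Fin (2 * g i) => (2 * Complex.I ^ (l : ℕ) : ℂ))
      (num (fun i => 2 * g i) (fun _ => 0) x) i = periods (branch x i) := by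
    intro i
    ext l j
    unfold P1
    rw [Matrix.diagonal_mul]
    rfl
  have hN' : ∀ i, ∃ X : Matrix (Fin (g i)) (Fin (g i)) ℂ, P1 (fun i => Matrix.diagonal fun l : Fin (2 * g i) => (2 * Complex.I ^ (l : ℕ) : ℂ))
      (num (fun i => 2 * g i) (fun _ => 0) x) i * X = (1 + comb b y i) * W i := by
    intro i
    obtain ⟨X, hX⟩ := hN i
    exact ⟨X, by rw [hP]; exact hX⟩
  rw [eq_top_iff]
  intro M _
  rw [hVE]
  intro c hc
  have h1 := hξ K io t ht x hx' hgen y hN' c (hE c hc) ((hVE y).1 hNV c hc)
  rw [h1]
  simp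

/-- **The conjecture at 100 percent of the points.** Let `g i ≥ 0` be natural numbers, `i` in a finite nonempty set,
let `W` describe a point `o` and let `b` be a basis of the tangent space at `o`. There is a monotone
function `ω → ∞` such that for all large `T`, all number fields `K` of degree at most `ω T` with a complex embedding: the
points of `Exceptional W b K io (ω T) T` lie on at most `T ^ (1 / ω T)` hypersurfaces of degree at most
`T ^ (1 / ω T)`, and there are at most `T ^ (1 / ω T) * N ^ (m - 1)` of them, where `N` is the number of the elements of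
`Height K T` and `m` is the number of the branch points. -/
theorem result [Nonempty ι] (g : ι → ℕ) (W : ∀ i, Matrix (Fin (2 * g i)) (Fin (g i)) ℂ) (hW : ∀ i, IsPoint (W i))
    (d : ℕ) (b : Fin d → ∀ i, Matrix (Fin (2 * g i)) (Fin (2 * g i)) ℂ) (hb : IsBasis W b) :
    ∃ (ω : ℝ → ℕ) (T₀ : ℝ), Tendsto ω atTop atTop ∧ Monotone ω ∧ ∀ T, T₀ ≤ T → 0 < ω T ∧
      ∀ (K : Type) [Field K] [NumberField K], Module.finrank ℚ K ≤ ω T → ∀ io : K →+* ℂ,
        OnHypersurfaces io (T ^ ((ω T : ℝ)⁻¹)) (Exceptional W b K io (ω T) T) ∧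
        Sparse T (T ^ ((ω T : ℝ)⁻¹)) (Exceptional W b K io (ω T) T) := by
  obtain ⟨k₀, hk₀⟩ := good_of hW hb
  obtain ⟨ω, T₀, h1, h2, h3⟩ := Pool.Agent.N207.UH.main (fun i => 2 * g i) (fun _ => 0)
    (fun i => even_two_mul (g i))
  obtain ⟨T₁, hT₁⟩ := eventually_atTop.1 (h1.eventually_ge_atTop k₀)
  refine ⟨ω, max (max T₀ T₁) 0, h1, h2, fun T hT => ?_⟩
  have hT0 : T₀ ≤ T := (le_max_left _ _).trans ((le_max_left _ _).trans hT)
  have hT1 : T₁ ≤ T := (le_max_right _ _).trans ((le_max_left _ _).trans hT)
  have hTp : 0 ≤ T := (le_max_right _ _).trans hT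
  refine ⟨(h3 T hT0).1, fun K _ _ hK io => ?_⟩
  obtain ⟨ξ, hξ⟩ := hk₀ (ω T) (hT₁ T hT1)
  obtain ⟨⟨Φ, hc, hd, hz⟩, h5, h6⟩ := (h3 T hT0).2 K hK io ξ
  have hsub : Exceptional W b K io (ω T) T ⊆
      Pool.Agent.N207.UH.Exceptional (fun i => 2 * g i) (fun _ => 0) (ω T) K io ξ T := by
    rintro x ⟨hx1, ⟨hx2, hx3⟩, hx4⟩
    have hdom : Domain g = Pool.Agent.N207.UH.Conf (fun i => 2 * g i) (fun _ => 0) := by
      ext y
      exact ⟨fun h i => ⟨h i, fun s => s.elim0, fun s => s.elim0⟩, fun h i => (h i).1⟩
    refine ⟨hx1, ⟨hx2, hdom ▸ hx3⟩, fun hgen => hx4 ?_⟩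
    have hpos : (0 : ℝ) < (ω T : ℝ)⁻¹ := inv_pos.2 (by exact_mod_cast (h3 T hT0).1)
    exact hξ K io T hTp _ (hx3 (Metric.mem_ball_self hpos)) hgen
  refine ⟨⟨Φ, hc, hd, fun x hx => hz _ ⟨x, hsub hx, rfl⟩⟩, h5.subset hsub, ?_⟩
  refine le_trans ?_ h6
  exact_mod_cast Set.ncard_le_ncard hsub h5

end Pool.Agent.Results.MP_1e27bd_ag.HyperellipticPoints
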