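import Pool.Agent.N882.UE.BiRat
import Mathlib.FieldTheory.AlgebraicClosure
import Mathlib.Data.Complex.Basic
import Mathlib.Algebra.Algebra.Rat

/-!
# The hyperbolic analytic subspace conjecture and linear relations

`T_oX` is a direct sum of lines which are rational for both `Qbar`-structures. With a basis of vectors in
these lines which are rational for the geometric structure, `T_oX = ℂ^ι`, the geometric structure is
`Qbar^ι`, and the arithmetic structure consists of the vectors `v` such that all `c i * v i` are
algebraic, with certain numbers `c i ≠ 0`. Let `Z ⊆ ℂ^ι` be the set of the points `z` of the bounded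
domain such that `[z]` is defined over `Qbar`. Let `i` and `j` be in the same class if `c i / c j` is
algebraic.

* Q1 holds if and only if for every `z ∈ Z` every linear relation with algebraic coefficients between the
  numbers `c i * z i` is a sum of relations each of which involves only one class.
* If no quotient `c i / c j`, `i ≠ j`, is algebraic, then Q1 holds if and only if for every `z ∈ Z` the
  nonzero ones of the numbers `c i * z i` are linearly independent over `Qbar`.
* The subspaces which are rational for both structures are the subspaces which are rational for the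
  geometric structure and stable under the projections to the classes.
-/

set_option autoImplicit false

namespace Pool.Agent.Results.MP_1e27bd_ag.LinearRelations

open Pool.Agent.N882.UE.BR

/-- the field of algebraic numbers -/
noncomputable def Qbar : Subfield ℂ := (algebraicClosure ℚ ℂ).toSubfield

/-- Q1 for the numbers `c i` and the set `Z` of points -/
def Q1 {ι : Type} (c : ι → ℂ) (Z : Set (ι → ℂ)) : Prop :=
  ∀ z ∈ Z, ∀ V : Submodule ℂ (ι → ℂ), IsRat Qbar c V → z ∈ V →
    ∃ V' : Submodule ℂ (ι → ℂ), V' ≤ V ∧ IsRat Qbar c V' ∧ IsRat Qbar (1 : ι → ℂ) V' ∧ z ∈ V'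

theorem result {ι : Type} [Fintype ι] (c : ι → ℂ) (hc : ∀ i, c i ≠ 0) (Z : Set (ι → ℂ)) :
    (Q1 c Z ↔ ∀ z ∈ Z, Splits Qbar c z) ∧
    ((∀ i j, Same Qbar c i j → i = j) → (Q1 c Z ↔ ∀ z ∈ Z, Indep Qbar c z)) ∧
    ∀ W : Submodule ℂ (ι → ℂ), (IsRat Qbar c W ∧ IsRat Qbar (1 : ι → ℂ) W) ↔
      (IsRat Qbar (1 : ι → ℂ) W ∧ ∀ j, ∀ v ∈ W, proj Qbar c j v ∈ W) := by
  have h : Q1 c Z ↔ ∀ z ∈ Z, Splits Qbar c z :=
    forall₂_congr fun z _ => splits_iff hc z
  exact ⟨h, fun hs => h.trans (forall₂_congr fun z _ => splits_indep hc hs z),
    fun W => birat_iff hc W⟩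

end Pool.Agent.Results.MP_1e27bd_ag.LinearRelations
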